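import Pool.Agent.Helper62.BW.Frame
import Pool.Agent.Helper4.BM.A12
import Pool.Agent.Helper90.BM.FewK

/-!
# Preparations for `W_FewK`
-/

set_option autoImplicit false

open Polynomial Matrix Finset NumberField IsDedekindDomain

namespace Pool.Agent.Helper4.BW

open Pool.Agent.Helper62.BM Pool.Agent.Helper62.BW Pool.Agent.Helper90.BM Pool.Agent.Helper4.BM

theorem Yh_eval' {k : Type} [Field k] (p g : ℕ) (F : k[X][X]) (s : k) (hp : 0 < p) (i j : Fin g) :
    hasseWitt p g (F.map (evalRingHom s)) i j = (Yh p g (2 * g) F i (lo j)).eval s := by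
  rw [hasseWitt_eq p hp]
  unfold Yh
  rw [Matrix.of_apply]
  have h : ∀ (q : k[X][X]) (n : ℕ), (q.coeff n).eval s = (q.map (evalRingHom s)).coeff n := by
    intro q n
    rw [coeff_map]; rfl
  rw [h]
  simp only [Polynomial.map_mul, Polynomial.map_pow, Polynomial.map_X, lo]

section maps

variable {A B : Type} [CommRing A] [CommRing B] [IsDomain A] [IsDomain B] {g : ℕ} (φ : A →+* B)

theorem gen_map (hφ : Function.Injective φ) {F : A[X][X]} (h : Gen g F) :
    Gen g (F.map (mapRingHom φ)) := by
  obtain ⟨h1, h2, h3⟩ := h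
  refine ⟨h1.map _, by rw [h1.natDegree_map, h2], ?_⟩
  obtain ⟨u, v, r, hr, huv⟩ := sep_clear F h3
  have h4 := sep_map ((algebraMap B[X] (FractionRing B[X])).comp (mapRingHom φ)) F u v r huv (by
    intro h0
    rw [RingHom.comp_apply] at h0
    have h5 := (IsFractionRing.injective B[X] (FractionRing B[X])) (h0.trans (map_zero _).symm)
    exact hr (Polynomial.map_injective φ hφ (by rw [Polynomial.map_zero]; exact h5)))
  rwa [← Polynomial.map_map] at h4

theorem fam_map (hφ : Function.Injective φ) {F : A[X][X]} {D : Dat A g} {P S : Fin (2 * g) → A[X][X]}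
    (h : Fam g F D P S) : Fam g (F.map (mapRingHom φ)) (D.map φ)
      (fun l => (P l).map (mapRingHom φ)) (fun l => (S l).map (mapRingHom φ)) := by
  obtain ⟨h1, h2, h3, h4⟩ := h
  refine ⟨gen_map φ hφ h1, ?_, ?_, ?_⟩
  · rw [map_W]
    exact map_rel φ h2
  · show D.M.map (mapRingHom φ) = _
    rw [h3]
    ext1 i j
    rw [Matrix.map_apply, coe_mapRingHom, map_Mg]
  · show D.Q.map (mapRingHom φ) = _
    rw [h4]
    ext1 i j
    rw [Matrix.map_apply, coe_mapRingHom, map_Q2F]

theorem map_evalRingHom (q : A[X][X]) (t : A) :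
    (q.map (evalRingHom t)).map φ = (q.map (mapRingHom φ)).map (evalRingHom (φ t)) := by
  rw [Polynomial.map_map, Polynomial.map_map]
  congr 1
  refine Polynomial.ringHom_ext (fun x => ?_) ?_
  · simp
  · simp

end maps

section ring

variable {K : Type} [Field K] [NumberField K]

theorem exists_ring (F : (𝓞 K)[X][X]) (t₀ x₀ : AlgebraicClosure K) (f₁ : (AlgebraicClosure K)[X])
    (hN : Node (F.map (toK K)) t₀ x₀ f₁) :
    ∃ (A : Subalgebra (𝓞 K) (AlgebraicClosure K)), A.FG ∧ ∃ (t x : A) (f : A[X]),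
      Node (F.map (mapRingHom (algebraMap (𝓞 K) A))) t x f := by
  classical
  set S : Finset (AlgebraicClosure K) := {t₀, x₀} ∪ f₁.coeffs with hS
  set A : Subalgebra (𝓞 K) (AlgebraicClosure K) := Algebra.adjoin (𝓞 K) (S : Set _) with hA
  have hsub : ∀ y ∈ S, y ∈ A := fun y hy => Algebra.subset_adjoin hy
  have ht : t₀ ∈ A := hsub _ (by rw [hS]; simp)
  have hx : x₀ ∈ A := hsub _ (by rw [hS]; simp)
  have hf : ∀ n, f₁.coeff n ∈ A := by
    intro n
    by_cases h : f₁.coeff n = 0
    · rw [h]; exact A.zero_mem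
    · exact hsub _ (by
        rw [hS]
        exact Finset.mem_union_right _ (coeff_mem_coeffs h))
  set ψ : A →+* AlgebraicClosure K := (A.val : A →+* AlgebraicClosure K) with hψ
  have hval : Function.Injective ψ := Subtype.val_injective
  obtain ⟨f, hff⟩ : ∃ f : A[X], f.map ψ = f₁ := by
    have h1 : f₁ ∈ Polynomial.lifts ψ := (Polynomial.lifts_iff_coeff_lifts f₁).2 fun n =>
      ⟨⟨f₁.coeff n, hf n⟩, rfl⟩
    exact (Polynomial.mem_lifts _).1 h1
  have hFF : (F.map (mapRingHom (algebraMap (𝓞 K) A))).map (mapRingHom ψ) = F.map (toK K) := by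
    rw [Polynomial.map_map, mapRingHom_comp]
    rfl
  refine ⟨A, ⟨S, rfl⟩, ⟨t₀, ht⟩, ⟨x₀, hx⟩, f, ?_, ?_, ?_, ?_⟩
  · apply Polynomial.map_injective ψ hval
    rw [map_evalRingHom, hFF]
    rw [Polynomial.map_mul, Polynomial.map_pow, Polynomial.map_sub, Polynomial.map_X,
      Polynomial.map_C, hff]
    exact hN.1
  · have h1 : f₁.Separable := (separable_map _).1 hN.2.1
    rw [← hff] at h1
    have h2 : Function.Injective (algebraMap A (AlgebraicClosure K)) := hval
    set L : FractionRing A →+* AlgebraicClosure K := IsFractionRing.lift (K := FractionRing A) hval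
      with hL
    have h3 : L.comp (algebraMap A (FractionRing A)) = ψ := by
      ext x
      rw [RingHom.comp_apply, hL, IsFractionRing.lift_algebraMap]
    rw [← separable_map L, Polynomial.map_map, h3]
    exact h1
  · intro h
    apply hN.2.2.1
    have h1 := congrArg ψ h
    rw [map_zero, ← Polynomial.eval_map_apply, hff] at h1
    exact h1
  · intro h
    apply hN.2.2.2
    have h1 := congrArg ψ h
    rw [map_zero, ← Polynomial.eval_map_apply, map_evalRingHom, map_dt, hFF] at h1
    exact h1

theorem countable_closure : Countable (AlgebraicClosure K) := by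
  have h1 : Algebra.IsAlgebraic ℚ K := inferInstance
  have h2 : Algebra.IsAlgebraic ℚ (AlgebraicClosure K) := Algebra.IsAlgebraic.trans ℚ K _
  have h3 := Algebraic.countable ℚ (AlgebraicClosure K)
  have h4 : {x : AlgebraicClosure K | IsAlgebraic ℚ x} = Set.univ := by
    ext x
    simp only [Set.mem_ofPred_eq, Set.mem_univ, iff_true]
    exact Algebra.IsAlgebraic.isAlgebraic x
  rw [h4, Set.countable_univ_iff] at h3
  exact h3

end ring

end Pool.Agent.Helper4.BW
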