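import Pool.Agent.Helper4.BW.Pre

/-!
# `W_FewK` from `W_FewG`
-/

set_option autoImplicit false

open Polynomial Matrix Finset NumberField IsDedekindDomain

namespace Pool.Agent.Helper4.BW

open Pool.Agent.Helper62.BM Pool.Agent.Helper62.BW Pool.Agent.Helper90.BM Pool.Agent.Helper4.BM

/-- `W_FewK`. -/
theorem w_fewK (hData : W_Data) (hStrong : W_Strong) (hTr : W_Tr) (hIrr : W_Irr) (hG : W_FewG) :
    W_FewK := by
  classical
  intro K _ _ g hg F φ hGen ⟨t₀, x₀, f₁, hNode⟩ hIrrF hφ G hG0 ε hε
  obtain ⟨A, hFG, tA, xA, fA, hNA⟩ := exists_ring F t₀ x₀ f₁ hNode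
  have hval : Function.Injective (A.val : A →+* AlgebraicClosure K) := Subtype.val_injective
  have halg : ∀ x : 𝓞 K, ((algebraMap (𝓞 K) A x : A) : AlgebraicClosure K) =
      algebraMap K (AlgebraicClosure K) (algebraMap (𝓞 K) K x) := fun x => rfl
  have h1 : Function.Injective (algebraMap (𝓞 K) A) := by
    intro x y hxy
    have h2 := congrArg (fun z : A => (z : AlgebraicClosure K)) hxy
    simp only [halg] at h2
    exact (IsFractionRing.injective (𝓞 K) K) ((algebraMap K (AlgebraicClosure K)).injective h2)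
  have h2 : Algebra.FiniteType (𝓞 K) A := (Subalgebra.fg_iff_finiteType A).mp hFG
  have h3 : Algebra.IsAlgebraic (𝓞 K) A := by
    have h4 : Algebra.IsAlgebraic (𝓞 K) (AlgebraicClosure K) :=
      (IsFractionRing.comap_isAlgebraic_iff (A := 𝓞 K) (K := K) (C := AlgebraicClosure K)).mpr
        inferInstance
    refine ⟨fun x => ?_⟩
    exact (isAlgebraic_algHom_iff A.val Subtype.val_injective).mp
      (h4.isAlgebraic (x : AlgebraicClosure K))
  have hCZ : CharZero A := charZero_of_injective_algebraMap h1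
  have hCt : Countable A := by
    have := countable_closure (K := K)
    exact Subtype.countable
  -- the family over `A`
  set FA : A[X][X] := F.map (mapRingHom (algebraMap (𝓞 K) A)) with hFA
  have hGenA : Gen g FA := gen_map (algebraMap (𝓞 K) A) h1 hGen
  obtain ⟨D, P, S, hFam, hOk⟩ := hData A g hg FA hGenA tA xA fA hNA
  have hFb : FA.map (mapRingHom (A.val : A →+* AlgebraicClosure K)) = F.map (toK K) := by
    rw [hFA, Polynomial.map_map, mapRingHom_comp]
    rfl
  have hStr : (D.map (algebraMap A (FractionRing A))).Strong := by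
    have k1 := fam_map (A.val : A →+* AlgebraicClosure K) hval hFam
    have k2 := ok_inj D hOk (A.val : A →+* AlgebraicClosure K) hval
    rw [hFb] at k1
    have k3 := hIrr (AlgebraicClosure K) g hg _ _ _ _ k1 k2 hIrrF
    have k4 := hStrong (AlgebraicClosure K) g hg _ k2 k3
    exact hTr A g D hOk (AlgebraicClosure K) (FractionRing A) _ _ hval
      (IsFractionRing.injective A (FractionRing A)) k4
  have hφ0 : φ ≠ 0 := by
    intro h
    rw [h, natDegree_zero] at hφ
    omega
  have hl0 : φ.leadingCoeff ≠ 0 := leadingCoeff_ne_zero.2 hφ0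
  have hGA0 : MvPolynomial.map (mapRingHom (algebraMap (𝓞 K) A)) G ≠ 0 := by
    intro h
    apply hG0
    apply MvPolynomial.map_injective (mapRingHom (algebraMap (𝓞 K) A)) (map_injective _ h1)
    rw [h, map_zero]
  obtain ⟨H, hH0, hH⟩ := A2 A g _ hGA0
  set d := φ.natDegree with hd
  have hdpos : (0 : ℝ) < d := by exact_mod_cast hφ
  -- the discriminant
  obtain ⟨u, w, dsc, hdsc, huw⟩ := sep_clear F hGen.2.2
  have hdl : dsc.leadingCoeff ≠ 0 := leadingCoeff_ne_zero.2 hdsc
  obtain ⟨p₀, a₀, ha₀, hfew⟩ := hG g hg A FA D P S hFam hOk hStr H hH0 (ε / (2 * d))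
    (by positivity)
  have hfin := spread (𝓞 K) A h1 h2 h3 a₀ ha₀
  obtain ⟨N, hN⟩ := exists_nat_gt (2 * dsc.natDegree * d / ε : ℝ)
  have h20 : (2 : 𝓞 K) ≠ 0 := two_ne_zero
  refine (((((hfin.union (finite_mem (K := K) φ.leadingCoeff hl0)).union
    (finite_mem (K := K) 2 h20)).union (finite_le (K := K) p₀)).union
    (finite_le (K := K) N)).union (finite_mem (K := K) dsc.leadingCoeff hdl)).subset ?_
  rintro v ⟨hv, hv'⟩
  by_contra hno
  simp only [Set.mem_union, Set.mem_ofPred_eq, not_or, not_not, not_le] at hno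
  obtain ⟨⟨⟨⟨⟨⟨k, hk, χ, hχ, hker⟩, hlv⟩, h2v⟩, hp0⟩, hpN⟩, hdv⟩ := hno
  rw [lt_iff_not_ge] at hv'
  apply hv'
  set p := Ideal.absNorm v.asIdeal with hp
  have hFp : Fact p.Prime := ⟨hv⟩
  have hcharκ := charP_res v hv
  rw [← hp] at hcharκ
  have hchar : CharP k p := by
    rw [CharP.charP_iff_prime_eq_zero hv]
    have h5 : (p : 𝓞 K) ∈ v.asIdeal := Ideal.absNorm_mem v.asIdeal
    rw [← hker, RingHom.mem_ker, map_natCast] at h5
    exact h5
  have hunits : v.asIdeal.primeCompl ≤
      Submonoid.comap (χ.comp (algebraMap (𝓞 K) A)) (IsUnit.submonoid k) := fun z hz => by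
    refine IsUnit.mk0 _ fun h0 => hz ?_
    rw [← hker]
    exact h0
  set κ := v.asIdeal.ResidueField with hκ
  set ι' : κ →+* k := Ideal.ResidueField.lift v.asIdeal
    (χ.comp (algebraMap (𝓞 K) A)) hker.ge hunits with hι
  have hcomp : ι'.comp (algebraMap (𝓞 K) κ) = χ.comp (algebraMap (𝓞 K) A) := by
    ext z
    exact Ideal.ResidueField.lift_algebraMap v.asIdeal (χ.comp (algebraMap (𝓞 K) A)) hker.ge
      hunits z
  have hcn := card_res v
  rw [← hp] at hcn
  have hfinite : Finite κ := Nat.finite_of_card_ne_zero (by rw [hcn]; exact hv.ne_zero)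
  have : Fintype κ := Fintype.ofFinite _
  rw [Nat.card_eq_fintype_card] at hcn
  have hpow : ∀ t : κ, t ^ p = t := fun t => by
    rw [← hcn]
    exact FiniteField.pow_card t
  set Fκ : κ[X][X] := F.map (mapRingHom (algebraMap (𝓞 K) κ)) with hFκ
  set Fk : k[X][X] := FA.map (mapRingHom χ) with hFk
  have hFkk : Fκ.map (mapRingHom ι') = Fk := by
    rw [hFκ, hFk, hFA, Polynomial.map_map, Polynomial.map_map, mapRingHom_comp, mapRingHom_comp,
      hcomp]
  set dκ : κ[X] := dsc.map (algebraMap (𝓞 K) κ) with hdκ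
  have hdκ0 : dκ ≠ 0 := by
    refine map_ne (algebraMap (𝓞 K) κ) dsc ?_
    rw [Ne, Ideal.algebraMap_residueField_eq_zero]
    exact hdv
  -- the bad members
  set r : ℕ → κ := fun t => algebraMap (𝓞 K) κ (φ.eval (t : 𝓞 K)) with hr
  obtain ⟨Z1, hZ1⟩ : ∃ Z1 : Finset κ, Z1 = dκ.roots.toFinset := ⟨_, rfl⟩
  obtain ⟨Z2, hZ2⟩ : ∃ Z2 : Finset κ, Z2 =
    univ.filter (fun s => MvPolynomial.eval₂ ((evalRingHom (ι' s)).comp (mapRingHom χ))
      (fun u : Fin g × Fin g => (Yh p g (2 * g) Fk u.1 (lo u.2)).eval (ι' s)) H = 0) :=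
    ⟨_, rfl⟩
  set Z : Finset κ := Z1 ∪ Z2 with hZ
  have hZcard : (Z.card : ℝ) ≤ dsc.natDegree + ε / (2 * d) * p := by
    have e1 : Z1.card ≤ dsc.natDegree := by
      rw [hZ1]
      exact (Multiset.toFinset_card_le _).trans ((card_roots' _).trans natDegree_map_le)
    have e3 := hfew p k χ hp0.le hχ (Z2.image ι') (by
        intro t ht
        obtain ⟨s, hs, rfl⟩ := Finset.mem_image.1 ht
        rw [hZ2, Finset.mem_filter] at hs
        exact ⟨by rw [← map_pow, hpow], hs.2⟩)
    rw [Finset.card_image_of_injective _ ι'.injective] at e3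
    have e4 : (Z.card : ℝ) ≤ (Z1.card : ℝ) + Z2.card := by
      exact_mod_cast Finset.card_union_le _ _
    refine e4.trans (add_le_add ?_ e3)
    exact_mod_cast e1
  have hbad : ∀ t : ℕ, ¬ (GoodOrd g (2 * g + 1) (membF F φ t) v ∧
      Avoids g G (φ.eval (t : 𝓞 K)) (membF F φ t) v) → r t ∈ Z := by
    intro t ht
    by_contra hcon
    apply ht
    rw [hZ, Finset.mem_union, hZ1, hZ2, Finset.mem_filter, Multiset.mem_toFinset, not_or,
      not_and, mem_roots hdκ0, IsRoot.def] at hcon
    have hc1 : dκ.eval (r t) ≠ 0 := hcon.1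
    have hc2 := hcon.2 (Finset.mem_univ _)
    have hrd : rd v (membF F φ t) = Fκ.map (evalRingHom (r t)) := by
      unfold rd membF
      rw [map_evalRingHom]
    have hrk : (rd v (membF F φ t)).map ι' = Fk.map (evalRingHom (ι' (r t))) := by
      rw [hrd, map_evalRingHom, hFkk]
    -- the Hasse-Witt matrix
    have hW : ∀ i j : Fin g, ι' (hasseWitt p g (rd v (membF F φ t)) i j) =
        (Yh p g (2 * g) Fk i (lo j)).eval (ι' (r t)) := by
      intro i j
      rw [hasseWitt_map, hrk, Yh_eval' p g Fk _ hv.pos]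
    have hnot := fun h => hc2 (hH k ((evalRingHom (ι' (r t))).comp (mapRingHom χ))
      (fun u : Fin g × Fin g => (Yh p g (2 * g) Fk u.1 (lo u.2)).eval (ι' (r t))) h)
    rw [imp_false, not_or, not_or] at hnot
    obtain ⟨hn1, hn2, -⟩ := hnot
    refine ⟨⟨h2v, ?_, ?_, ?_⟩, ?_⟩
    · unfold rd membF
      rw [(hGen.1.map _).natDegree_map, hGen.1.natDegree_map, hGen.2.1]
    · have k1 := sep_map ((evalRingHom (r t)).comp (mapRingHom (algebraMap (𝓞 K) κ))) F u w dsc huw
        (by
          rw [RingHom.comp_apply, coe_mapRingHom, coe_evalRingHom]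
          exact hc1)
      rwa [hrd, hFκ, Polynomial.map_map]
    · intro hdet
      apply hn1
      have hdet' : ι' ((hasseWitt p g (rd v (membF F φ t))).det) = 0 := by
        rw [hdet, map_zero]
      rw [RingHom.map_det] at hdet'
      rw [← hdet']
      congr 1
      ext i j
      rw [Matrix.of_apply, RingHom.mapMatrix_apply, Matrix.map_apply, hW]
    · intro hav
      have h5 : ∀ W : Fin g × Fin g → k,
          MvPolynomial.eval₂ ((evalRingHom (ι' (r t))).comp (mapRingHom χ)) W
            (MvPolynomial.map (mapRingHom (algebraMap (𝓞 K) A)) G) =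
          MvPolynomial.eval₂ (ι'.comp ((algebraMap (𝓞 K) κ).comp
            (evalRingHom (φ.eval (t : 𝓞 K))))) W G := by
        intro W
        rw [MvPolynomial.eval₂_map]
        congr 1
        refine Polynomial.ringHom_ext (fun x => ?_) ?_
        · simp only [RingHom.comp_apply, coe_mapRingHom, map_C, coe_evalRingHom, eval_C]
          exact (RingHom.congr_fun hcomp x).symm
        · simp only [RingHom.comp_apply, coe_mapRingHom, map_X, coe_evalRingHom, eval_X]
          rfl
      have h6 := congrArg ι' hav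
      rw [map_zero, MvPolynomial.eval₂_comp_left] at h6
      apply hn2
      rw [h5, ← h6]
      congr 1
      funext u
      exact (hW u.1 u.2).symm
  have hfib : ∀ s : κ, (((range p).filter fun t : ℕ => ¬ (GoodOrd g (2 * g + 1) (membF F φ t) v ∧
      Avoids g G (φ.eval (t : 𝓞 K)) (membF F φ t) v)).filter (fun t => r t = s)).card ≤ d := by
    intro s
    have hlκ : algebraMap (𝓞 K) κ φ.leadingCoeff ≠ 0 := by
      rw [Ne, Ideal.algebraMap_residueField_eq_zero]
      exact hlv
    have hdegφ : (φ.map (algebraMap (𝓞 K) κ)).natDegree = d :=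
      natDegree_map_of_leadingCoeff_ne_zero _ hlκ
    have hne : φ.map (algebraMap (𝓞 K) κ) - C s ≠ 0 := by
      intro h
      rw [sub_eq_zero] at h
      rw [h, natDegree_C] at hdegφ
      omega
    have hdeg2 : (φ.map (algebraMap (𝓞 K) κ) - C s).natDegree ≤ d := by
      rw [natDegree_sub_C, hdegφ]
    have hinjOn : Set.InjOn (fun t : ℕ => (t : κ)) (range p : Set ℕ) := by
      intro x hx y hy hxy
      rw [Finset.coe_range, Set.mem_Iio] at hx hy
      have := (CharP.natCast_eq_natCast κ p).1 hxy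
      rw [Nat.ModEq, Nat.mod_eq_of_lt hx, Nat.mod_eq_of_lt hy] at this
      exact this
    have hsub : (((range p).filter fun t : ℕ => ¬ (GoodOrd g (2 * g + 1) (membF F φ t) v ∧
      Avoids g G (φ.eval (t : 𝓞 K)) (membF F φ t) v)).filter (fun t => r t = s)).image
        (fun t : ℕ => (t : κ)) ⊆ (φ.map (algebraMap (𝓞 K) κ) - C s).roots.toFinset := by
      intro x hx
      obtain ⟨t, ht, rfl⟩ := Finset.mem_image.1 hx
      have hts := (Finset.mem_filter.1 ht).2
      rw [Multiset.mem_toFinset, mem_roots hne, IsRoot.def, eval_sub, eval_C, sub_eq_zero,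
        ← hts, hr]
      simp only
      rw [← Polynomial.eval₂_at_apply, Polynomial.eval₂_eq_eval_map, map_natCast]
    calc _ = ((((range p).filter fun t : ℕ => ¬ (GoodOrd g (2 * g + 1) (membF F φ t) v ∧
      Avoids g G (φ.eval (t : 𝓞 K)) (membF F φ t) v)).filter (fun t => r t = s)).image
        (fun t : ℕ => (t : κ))).card := by
          rw [Finset.card_image_of_injOn]
          refine hinjOn.mono ?_
          intro t ht
          exact Finset.mem_coe.2 (Finset.mem_filter.1 (Finset.mem_filter.1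
            (Finset.mem_coe.1 ht)).1).1
      _ ≤ (φ.map (algebraMap (𝓞 K) κ) - C s).roots.toFinset.card := Finset.card_le_card hsub
      _ ≤ (φ.map (algebraMap (𝓞 K) κ) - C s).roots.card := Multiset.toFinset_card_le _
      _ ≤ (φ.map (algebraMap (𝓞 K) κ) - C s).natDegree := card_roots' _
      _ ≤ d := hdeg2
  have hcount : ((range p).filter fun t : ℕ => ¬ (GoodOrd g (2 * g + 1) (membF F φ t) v ∧
      Avoids g G (φ.eval (t : 𝓞 K)) (membF F φ t) v)).card ≤ d * Z.card := by
    refine (Finset.card_le_mul_card_image (f := r) _ d (fun s _ => hfib s)).trans ?_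
    refine Nat.mul_le_mul_left _ (Finset.card_le_card ?_)
    intro s hs
    obtain ⟨t, ht, rfl⟩ := Finset.mem_image.1 hs
    exact hbad t (Finset.mem_filter.1 ht).2
  have hcount' : ((((range p).filter fun t : ℕ => ¬ (GoodOrd g (2 * g + 1) (membF F φ t) v ∧
      Avoids g G (φ.eval (t : 𝓞 K)) (membF F φ t) v)).card : ℕ) : ℝ) ≤ d * Z.card := by
    exact_mod_cast hcount
  refine hcount'.trans ?_
  have hpN' : (N : ℝ) < p := by exact_mod_cast hpN
  have h6 : 2 * dsc.natDegree * d / ε < p := hN.trans hpN'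
  rw [div_lt_iff₀ hε] at h6
  calc (d : ℝ) * Z.card ≤ d * (dsc.natDegree + ε / (2 * d) * p) :=
        mul_le_mul_of_nonneg_left hZcard hdpos.le
    _ = dsc.natDegree * d + ε * p / 2 := by field_simp
    _ ≤ ε * p := by linarith

end Pool.Agent.Helper4.BW
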